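import Pool.Agent.N461.LK.Stm

/-! Leaf LK/F: the best colouring is good at every vertex. -/

set_option autoImplicit false
set_option maxRecDepth 100000
set_option maxHeartbeats 4000000
open Finset
open scoped Classical

namespace Pool.Agent.N928.LKF
open Pool.Agent.H122R2.N6 Pool.Agent.H37R3.K5
open Pool.Agent.N461.LK

theorem Rk_sy {k : ℕ} : Sy (fun i j l : Fin k => Rk i j l) where
  b i j l := by
    show Rk i j l = 0 ∨ Rk i j l = 1
    unfold Rk
    split_ifs
    · exact Or.inl rfl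
    · exact Or.inr rfl
  h213 i j l := by
    show Rk j i l = Rk i j l
    unfold Rk
    exact if_congr ⟨fun h => ⟨h.1.symm, h.1.trans h.2⟩, fun h => ⟨h.1.symm, h.1.trans h.2⟩⟩ rfl rfl
  h132 i j l := by
    show Rk i l j = Rk i j l
    unfold Rk
    exact if_congr ⟨fun h => ⟨h.1.trans h.2, h.2.symm⟩, fun h => ⟨h.1.trans h.2, h.2.symm⟩⟩ rfl rfl

section
variable {k : ℕ} {V : Type}

theorem Tf_of {c : V → Fin k} {x y z : V} (h1 : x ≠ y) (h2 : x ≠ z) (h3 : y ≠ z) :
    Tf c x y z = Rk (c x) (c y) (c z) := by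
  unfold Tf
  rw [if_pos ⟨h1, h2, h3⟩]

theorem Tf_ne {c : V → Fin k} {x y z : V} (h : Tf c x y z = 1) : x ≠ y ∧ x ≠ z ∧ y ≠ z := by
  unfold Tf at h
  by_contra h2
  rw [if_neg h2] at h
  exact absurd h (by decide)

end

section
variable {k : ℕ} {V : Type} [Fintype V] {E : V → V → V → ℕ}

/-- indicator of a bad triple -/
noncomputable def Fb (E : V → V → V → ℕ) (g : V → Fin k) (t : Fin 3 → V) : ℝ :=
  if E (t 0) (t 1) (t 2) ≠ Rk (g (t 0)) (g (t 1)) (g (t 2)) then 1 else 0

noncomputable def Gb (E : V → V → V → ℕ) (c : V → Fin k) (v : V) (j : Fin k) (a b : V) : ℝ :=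
  if E v a b ≠ Rk j (c a) (c b) then 1 else 0

theorem bad_sum (g : V → Fin k) : (b3 E g : ℝ) = ∑ t : Fin 3 → V, Fb E g t := by
  unfold b3 Fb
  rw [card_filter]
  push_cast
  exact sum_congr rfl fun t _ => by congr

theorem mm_sum (c : V → Fin k) (v : V) (j : Fin k) :
    (mm E c v j : ℝ) = ∑ y : Fin 2 → V, Gb E c v j (y 0) (y 1) := by
  unfold mm Gb
  rw [card_filter]
  push_cast
  exact sum_congr rfl fun t _ => by congr

omit [Fintype V] in
theorem F01 (g : V → Fin k) (t : Fin 3 → V) : 0 ≤ Fb E g t ∧ Fb E g t ≤ 1 := by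
  unfold Fb; split_ifs <;> norm_num

omit [Fintype V] in
theorem G01 (c : V → Fin k) (v : V) (j : Fin k) (a b : V) :
    0 ≤ Gb E c v j a b ∧ Gb E c v j a b ≤ 1 := by
  unfold Gb; split_ifs <;> norm_num

omit [Fintype V] in
theorem pointwise (hE : Sy E) (c : V → Fin k) (v : V) (j : Fin k) (t : Fin 3 → V) :
    Fb E (Function.update c v j) t ≤ Fb E c t +
      (if t 0 = v then Gb E c v j (t 1) (t 2) - Gb E c v (c v) (t 1) (t 2) else 0) +
      (if t 1 = v then Gb E c v j (t 0) (t 2) - Gb E c v (c v) (t 0) (t 2) else 0) +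
      (if t 2 = v then Gb E c v j (t 0) (t 1) - Gb E c v (c v) (t 0) (t 1) else 0) +
      3 * ((if t 0 = v ∧ t 1 = v then 1 else 0) + (if t 0 = v ∧ t 2 = v then 1 else 0) +
        (if t 1 = v ∧ t 2 = v then 1 else 0)) := by
  have a1 := F01 (E := E) (Function.update c v j) t
  have a2 := F01 (E := E) c t
  have b1 := G01 (E := E) c v j (t 1) (t 2)
  have b2 := G01 (E := E) c v (c v) (t 1) (t 2)
  have b3 := G01 (E := E) c v j (t 0) (t 2)
  have b4 := G01 (E := E) c v (c v) (t 0) (t 2)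
  have b5 := G01 (E := E) c v j (t 0) (t 1)
  have b6 := G01 (E := E) c v (c v) (t 0) (t 1)
  by_cases h0 : t 0 = v <;> by_cases h1 : t 1 = v <;> by_cases h2 : t 2 = v
  · simp only [h0, h1, h2, and_self, if_true] at *
    linarith
  · simp only [h0, h1, h2, and_self, and_false, if_true, if_false] at *
    linarith
  · simp only [h0, h1, h2, and_self, and_false, false_and, if_true, if_false] at *
    linarith
  · have e1 : Fb E (Function.update c v j) t = Gb E c v j (t 1) (t 2) := by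
      unfold Fb Gb
      rw [h0, Function.update_self, Function.update_of_ne h1, Function.update_of_ne h2]
    have e2 : Fb E c t = Gb E c v (c v) (t 1) (t 2) := by
      unfold Fb Gb
      rw [h0]
    rw [e1, e2, if_pos h0, if_neg h1, if_neg h2, if_neg (fun h => h1 h.2), if_neg (fun h => h2 h.2),
      if_neg (fun h => h1 h.1)]
    linarith
  · simp only [h0, h1, h2, and_self, and_false, false_and, if_true, if_false] at *
    linarith
  · have e1 : Fb E (Function.update c v j) t = Gb E c v j (t 0) (t 2) := by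
      unfold Fb Gb
      rw [h1, Function.update_self, Function.update_of_ne h0, Function.update_of_ne h2,
        ← hE.h213 (t 0) v (t 2), ← Rk_sy.h213 (c (t 0)) j (c (t 2))]
    have e2 : Fb E c t = Gb E c v (c v) (t 0) (t 2) := by
      unfold Fb Gb
      rw [h1, ← hE.h213 (t 0) v (t 2), ← Rk_sy.h213 (c (t 0)) (c v) (c (t 2))]
    rw [e1, e2, if_pos h1, if_neg h0, if_neg h2, if_neg (fun h => h0 h.1), if_neg (fun h => h0 h.1),
      if_neg (fun h => h2 h.2)]
    linarith
  · have e1 : Fb E (Function.update c v j) t = Gb E c v j (t 0) (t 1) := by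
      unfold Fb Gb
      rw [h2, Function.update_self, Function.update_of_ne h0, Function.update_of_ne h1,
        ← hE.h231 v (t 0) (t 1), ← Rk_sy.h231 j (c (t 0)) (c (t 1))]
    have e2 : Fb E c t = Gb E c v (c v) (t 0) (t 1) := by
      unfold Fb Gb
      rw [h2, ← hE.h231 v (t 0) (t 1), ← Rk_sy.h231 (c v) (c (t 0)) (c (t 1))]
    rw [e1, e2, if_pos h2, if_neg h0, if_neg h1, if_neg (fun h => h0 h.1), if_neg (fun h => h0 h.1),
      if_neg (fun h => h1 h.1)]
    linarith
  · have e1 : Fb E (Function.update c v j) t = Fb E c t := by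
      unfold Fb
      rw [Function.update_of_ne h0, Function.update_of_ne h1, Function.update_of_ne h2]
    rw [e1, if_neg h0, if_neg h1, if_neg h2, if_neg (fun h => h0 h.1), if_neg (fun h => h0 h.1),
      if_neg (fun h => h1 h.1)]
    linarith

theorem min_col (hE : Sy E) {c : V → Fin k} (hc : ∀ g : V → Fin k, b3 E c ≤ b3 E g) (v : V)
    (j : Fin k) :
    (mm E c v (c v) : ℝ) ≤ mm E c v j + 3 * Fintype.card V := by
  have h1 : (b3 E c : ℝ) ≤ b3 E (Function.update c v j) := by exact_mod_cast hc _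
  rw [bad_sum, bad_sum] at h1
  have h2 := sum_le_sum fun t (_ : t ∈ (univ : Finset (Fin 3 → V))) => pointwise hE c v j t
  simp only [sum_add_distrib, ← mul_sum] at h2
  have i0 := Pool.Agent.N461.LP.ins_sum (V := V) 0 v fun t =>
    Gb E c v j (t 1) (t 2) - Gb E c v (c v) (t 1) (t 2)
  have i1 := Pool.Agent.N461.LP.ins_sum (V := V) 1 v fun t =>
    Gb E c v j (t 0) (t 2) - Gb E c v (c v) (t 0) (t 2)
  have i2 := Pool.Agent.N461.LP.ins_sum (V := V) 2 v fun t =>
    Gb E c v j (t 0) (t 1) - Gb E c v (c v) (t 0) (t 1)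
  have j0 : ∑ y : Fin 2 → V, (Gb E c v j ((Fin.insertNth 0 v y : Fin 3 → V) 1)
      ((Fin.insertNth 0 v y : Fin 3 → V) 2) - Gb E c v (c v) ((Fin.insertNth 0 v y : Fin 3 → V) 1)
      ((Fin.insertNth 0 v y : Fin 3 → V) 2)) = mm E c v j - mm E c v (c v) := by
    rw [mm_sum, mm_sum, ← sum_sub_distrib]
    rfl
  have j1 : ∑ y : Fin 2 → V, (Gb E c v j ((Fin.insertNth 1 v y : Fin 3 → V) 0)
      ((Fin.insertNth 1 v y : Fin 3 → V) 2) - Gb E c v (c v) ((Fin.insertNth 1 v y : Fin 3 → V) 0)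
      ((Fin.insertNth 1 v y : Fin 3 → V) 2)) = mm E c v j - mm E c v (c v) := by
    rw [mm_sum, mm_sum, ← sum_sub_distrib]
    rfl
  have j2 : ∑ y : Fin 2 → V, (Gb E c v j ((Fin.insertNth 2 v y : Fin 3 → V) 0)
      ((Fin.insertNth 2 v y : Fin 3 → V) 1) - Gb E c v (c v) ((Fin.insertNth 2 v y : Fin 3 → V) 0)
      ((Fin.insertNth 2 v y : Fin 3 → V) 1)) = mm E c v j - mm E c v (c v) := by
    rw [mm_sum, mm_sum, ← sum_sub_distrib]
    rfl
  rw [i0, i1, i2, j0, j1, j2] at h2
  have k0 := Pool.Agent.N461.LP.two_le (V := V) (i := 0) (j := 1) (by decide) v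
  have k1 := Pool.Agent.N461.LP.two_le (V := V) (i := 0) (j := 2) (by decide) v
  have k2 := Pool.Agent.N461.LP.two_le (V := V) (i := 1) (j := 2) (by decide) v
  linarith

/-- missing triples at a vertex -/
theorem miss_le (c : V → Fin k) (v : V) :
    ∑ p, ∑ q, Mf E c v p q ≤ mm E c v (c v) := by
  rw [mm_sum, ← Equiv.sum_comp (finTwoArrowEquiv V).symm, Fintype.sum_prod_type]
  refine sum_le_sum fun p _ => sum_le_sum fun q _ => ?_
  show Mf E c v p q ≤ Gb E c v (c v) p q
  unfold Mf Gb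
  split_ifs with h1 h2
  · norm_num
  · exfalso
    apply h2
    obtain ⟨a, b, d⟩ := Tf_ne h1.2
    rw [h1.1]
    have := h1.2
    rw [Tf_of a b d] at this
    rw [this]
    norm_num
  · norm_num
  · norm_num

end

theorem main : S_F := by
  intro k V _ E _ hE c hc v j
  exact (miss_le c v).trans (min_col hE hc v j)

end Pool.Agent.N928.LKF
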